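import Pool.Agent.Q138.PD.Conv
import Pool.Agent.Q138.PD.PGL

set_option autoImplicit false

/-!
# Minimal convergence groups on the 2-sphere inside products

Let `(G, ℋ)` be as in the relative Cannon conjecture: `G` is hyperbolic relative to virtually-`ℤ²`
subgroups and the Bowditch boundary is the 2-sphere. Then `G` acts on the sphere as a minimal convergence
group, and the kernel of the action is finite. Call a finitely generated group with a faithful minimal
convergence action on the 2-sphere a `SphereGroup`; so `G` modulo its largest finite normal subgroup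
is such a group, for instance `G` itself if it is torsion-free.

We prove for a `SphereGroup` `H`:

* the centralizer of every nontrivial normal subgroup is trivial, and no nontrivial normal subgroup is
  solvable;
* if `H` is embedded in a restricted product of groups then it embeds in one of the factors;
* if `H` is embedded in an unrestricted product of groups `G i` then it embeds in an ultraproduct;
* if `H` is embedded in a power `PGL_n(ℂ)^I` then it embeds in `PGL_n(ℂ)`. For `n = 2` this is the group
  of orientation preserving isometries of hyperbolic 3-space: a `SphereGroup` which is residually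
  Kleinian is isomorphic to a subgroup of `PSL_2(ℂ)`.

So, for every property `Q` of groups (such as: if the group is as in the relative Cannon conjecture then
it is commensurable to the group of a hyperbolic 3-manifold of finite volume), the class of groups `G`
such that all `SphereGroup`s in `G` have the property `Q` is closed under restricted direct products,
directed unions, and extensions by solvable kernels (and, more generally, subdirect products of finitely
many groups up to solvable kernels).

The proof. If `a₀, a₁, …` are distinct elements of a normal subgroup `A` which converge to the point `p`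
away from `q`, then every `b` in the centralizer of `A` fixes `p`, and also all points `g p`, because
`g aₙ g⁻¹` is a sequence in `A` that converges to `g p`. The orbit of `p` is dense, so `b = 1`. If
`A` is finite then it permutes by conjugation, and a similar argument with an arbitrary sequence shows that
`A` is trivial.
-/

namespace Pool.Agent.Results.MP_04c03c_gt.ConvergenceGroupsInProducts

open Filter Topology Pool.Agent.Q138.PD Matrix
open scoped MatrixGroups

/-- The 2-sphere. -/
def S2 : Type := Metric.sphere (0 : EuclideanSpace ℝ (Fin 3)) 1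

/-- with the metric of `ℝ³` -/
noncomputable instance : MetricSpace S2 :=
  inferInstanceAs (MetricSpace (Metric.sphere (0 : EuclideanSpace ℝ (Fin 3)) 1))

/-- A faithful minimal convergence action: every orbit is dense, and every sequence of distinct elements
has a subsequence which converges to a constant `a`, locally uniformly on the complement of a point
`b`. -/
def Convergence {M : Type} [MetricSpace M] {H : Type} [Group H] (ρ : H →* (M ≃ₜ M)) : Prop :=
  Function.Injective ρ ∧ (∀ x : M, Dense (Set.range fun g => ρ g x)) ∧
    ∀ g : ℕ → H, Function.Injective g → ∃ (φ : ℕ → ℕ) (a b : M), StrictMono φ ∧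
      TendstoLocallyUniformlyOn (fun n x => ρ (g (φ n)) x) (fun _ => a) atTop {b}ᶜ

/-- `H` is finitely generated and has a faithful minimal convergence action on the 2-sphere. -/
def SphereGroup (H : Type) [Group H] : Prop :=
  Group.FG H ∧ ∃ ρ : H →* (S2 ≃ₜ S2), Convergence ρ

/-- All `SphereGroup`s which embed in `G` have the property `Q`. -/
def AllHave (Q : (H : Type) → Group H → Prop) (G : Type) [Group G] : Prop :=
  ∀ (H : Type) [hH : Group H], SphereGroup H → ∀ f : H →* G, Function.Injective f → Q H hH

/-- The restricted direct product. -/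
def FinSupp {I : Type} (G : I → Type) [∀ i, Group (G i)] : Subgroup (∀ i, G i) where
  carrier := {x | {i | x i ≠ 1}.Finite}
  one_mem' := by simp
  mul_mem' {x y} hx hy := by
    refine (hx.union hy).subset fun i hi => ?_
    by_contra hcon
    simp only [Set.mem_union, Set.mem_ofPred_eq, not_or, not_not] at hcon
    apply hi
    show x i * y i = 1
    rw [hcon.1, hcon.2, one_mul]
  inv_mem' {x} hx := by
    refine hx.subset fun i hi hcon => hi ?_
    show (x i)⁻¹ = 1
    rw [hcon, inv_one]

instance : Infinite S2 := by
  have h1 : Infinite (Metric.sphere (0 : EuclideanSpace ℝ (Fin 3)) 1) := by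
    have hr : 1 < Module.rank ℝ (EuclideanSpace ℝ (Fin 3)) := by
      rw [rank_eq_card_basis (EuclideanSpace.basisFun (Fin 3) ℝ).toBasis]
      simp
    have h2 : (Metric.sphere (0 : EuclideanSpace ℝ (Fin 3)) 1).Nontrivial := by
      refine ⟨EuclideanSpace.single 0 1, by simp, -EuclideanSpace.single 0 1, by simp, ?_⟩
      intro h
      have := congrFun (congrArg WithLp.ofLp h) 0
      simp at this
      norm_num at this
    have h3 := (isConnected_sphere hr (0 : EuclideanSpace ℝ (Fin 3)) (zero_le_one)).isPreconnected
    exact (h3.infinite_of_nontrivial h2).to_subtype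
  exact h1

theorem SphereGroup.convAct {H : Type} [Group H] (h : SphereGroup H) :
    ∃ ρ : H →* (S2 ≃ₜ S2), ConvAct ρ := by
  obtain ⟨-, ρ, h1, h2, h3⟩ := h
  refine ⟨ρ, h1, h2, fun g hg => ?_⟩
  obtain ⟨φ, a, b, hφ, hab⟩ := h3 g hg
  exact ⟨φ, a, b, hφ, fun x hx => hab.tendsto_at hx⟩

theorem SphereGroup.ni {H : Type} [Group H] (h : SphereGroup H) : NI H := by
  obtain ⟨ρ, hρ⟩ := h.convAct
  exact hρ.ni

theorem SphereGroup.centralizer {H : Type} [Group H] (h : SphereGroup H) (A : Subgroup H)
    (hA : A.Normal) (hne : A ≠ ⊥) (b : H) (hb : ∀ a ∈ A, b * a = a * b) : b = 1 := by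
  obtain ⟨ρ, hρ⟩ := h.convAct
  exact hρ.centralizer A hA hne b hb

theorem SphereGroup.nontrivial {H : Type} [Group H] (h : SphereGroup H) : Nontrivial H := by
  obtain ⟨ρ, hρ⟩ := h.convAct
  have := hρ.infinite
  exact inferInstance

theorem SphereGroup.countable {H : Type} [Group H] (h : SphereGroup H) : Countable H := by
  obtain ⟨α, hα, φ, hφ⟩ := Group.fg_iff_exists_freeGroup_hom_surjective_finite.mp h.1
  exact hφ.countable

theorem solvable_normal {H : Type} [Group H] (K : Subgroup H) [K.Normal] (hK : Group.IsSolvable K)
    (hne : K ≠ ⊥) : ∃ A : Subgroup H, A.Normal ∧ A ≠ ⊥ ∧ ∀ a ∈ A, ∀ b ∈ A, a * b = b * a := by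
  classical
  have h0 := hK.solvable
  have hspec := Nat.find_spec h0
  have hmin : ∀ m, m < Nat.find h0 → derivedSeries K m ≠ ⊥ := fun m hm => Nat.find_min h0 hm
  rcases hk : Nat.find h0 with _ | k
  · rw [hk, derivedSeries_zero] at hspec
    exfalso
    apply hne
    rw [eq_bot_iff]
    intro x hx
    have : (⟨x, hx⟩ : K) ∈ (⊥ : Subgroup K) := by rw [← hspec]; trivial
    rw [Subgroup.mem_bot] at this
    exact (Subgroup.mem_bot).mpr (congrArg Subtype.val this)
  · rw [hk, derivedSeries_succ] at hspec
    refine ⟨(derivedSeries K k).map K.subtype, inferInstance, ?_, ?_⟩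
    · intro hcon
      apply hmin k (by omega)
      rwa [Subgroup.map_eq_bot_iff_of_injective _ K.subtype_injective] at hcon
    · rintro _ ⟨a, ha, rfl⟩ _ ⟨b, hb, rfl⟩
      have h1 := Subgroup.commutator_mem_commutator ha hb
      rw [hspec, Subgroup.mem_bot, commutatorElement_eq_one_iff_mul_comm] at h1
      rw [← map_mul, h1, map_mul]

theorem SphereGroup.not_solvable {H : Type} [Group H] (h : SphereGroup H) (K : Subgroup H)
    (hK : K.Normal) (hne : K ≠ ⊥) : ¬ Group.IsSolvable K := by
  intro hs
  obtain ⟨A, hA, hA1, hA2⟩ := solvable_normal K hs hne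
  obtain ⟨⟨a, ha⟩, ha1⟩ := Subgroup.ne_bot_iff_exists_ne_one.mp hA1
  exact ha1 (Subtype.ext (h.centralizer A hA hA1 a fun b hb => hA2 a ha b hb))

/-- A group of finitely supported families. -/
theorem factor {H : Type} [Group H] (h : SphereGroup H) {I : Type} {G : I → Type}
    [∀ i, Group (G i)] (f : H →* ∀ i, G i) (hf : Function.Injective f)
    (hs : ∀ x, {i | f x i ≠ 1}.Finite) : ∃ i, Function.Injective fun x => f x i := by
  classical
  have := h.nontrivial
  obtain ⟨S, hS⟩ := h.1.out
  let J : Finset I := S.biUnion fun s => (hs s).toFinset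
  have h1 : ∀ x : H, ∀ i, i ∉ J → f x i = 1 := by
    intro x i hi
    have hx : x ∈ Subgroup.closure (S : Set H) := by rw [hS]; exact Subgroup.mem_top x
    induction hx using Subgroup.closure_induction with
    | mem s hs' =>
      by_contra hcon
      exact hi (Finset.mem_biUnion.mpr ⟨s, hs', (hs s).mem_toFinset.mpr hcon⟩)
    | one => rw [map_one]; rfl
    | mul a b _ _ ha hb => rw [map_mul, Pi.mul_apply, ha, hb, one_mul]
    | inv a _ ha => rw [map_inv, Pi.inv_apply, ha, inv_one]
  let N : I → Subgroup H := fun i => ((Pi.evalMonoidHom G i).comp f).ker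
  obtain ⟨i, -, hi⟩ := NI.finset h.ni J N (fun i => inferInstance) (by
    rw [eq_bot_iff]
    intro x hx
    rw [Subgroup.mem_bot]
    apply hf
    rw [map_one]
    funext i
    by_cases hiJ : i ∈ J
    · have h2 : x ∈ N i := by
        have := (Subgroup.mem_iInf.mp ((Subgroup.mem_iInf.mp hx) i)) hiJ
        exact this
      exact h2
    · exact h1 x i hiJ)
  exact ⟨i, (MonoidHom.ker_eq_bot_iff ((Pi.evalMonoidHom G i).comp f)).mp hi⟩

theorem jointly {H : Type} [Group H] {I : Type} {G : I → Type} [∀ i, Group (G i)]
    (f : H →* ∀ i, G i) (hf : Function.Injective f) (x : H) (hx : x ≠ 1) :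
    ∃ i, ((Pi.evalMonoidHom G i).comp f) x ≠ 1 := by
  by_contra hcon
  push Not at hcon
  apply hx
  apply hf
  rw [map_one]
  funext i
  exact hcon i

/-- `H` embedded in a product: in a restricted product some projection is injective; in general there
is an ultrafilter such that every nontrivial element is nontrivial in almost all coordinates. -/
def InProducts (H : Type) [Group H] : Prop :=
  ∀ (I : Type) (G : I → Type) [∀ i, Group (G i)] (f : H →* ∀ i, G i), Function.Injective f →
    ((∀ x, {i | f x i ≠ 1}.Finite) → ∃ i, Function.Injective fun x => f x i) ∧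
    (∃ U : Ultrafilter I, ∀ x, x ≠ 1 → ∀ᶠ i in (U : Filter I), f x i ≠ 1)

/-- If `H` embeds in a power of `PGL_n(ℂ)` then it embeds in `PGL_n(ℂ)`. -/
def InPGL (H : Type) [Group H] : Prop :=
  ∀ (n : ℕ) (I : Type) (f : H →* (I → PGL(n, ℂ))), Function.Injective f →
    ∃ g : H →* PGL(n, ℂ), Function.Injective g

/-- The class `C` is closed under restricted direct products. -/
def ClosedProd (C : (G : Type) → [Group G] → Prop) : Prop :=
  ∀ (I : Type) (G : I → Type) [∀ i, Group (G i)], (∀ i, C (G i)) → C (FinSupp G)

/-- If `PGL_n(ℂ)` is in `C` then all its powers are. -/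
def ClosedPower (C : (G : Type) → [Group G] → Prop) : Prop :=
  ∀ (n : ℕ) (I : Type), C PGL(n, ℂ) → C (I → PGL(n, ℂ))

/-- `G` is in `C` if `G / N i` is for finitely many normal subgroups with solvable intersection. -/
def ClosedExt (C : (G : Type) → [Group G] → Prop) : Prop :=
  ∀ (G : Type) [Group G] (ι : Type) [Finite ι] (N : ι → Subgroup G) [∀ i, (N i).Normal],
    Group.IsSolvable (⨅ i, N i : Subgroup G) → (∀ i, C (G ⧸ N i)) → C G

/-- The class `C` is closed under directed unions. -/
def ClosedUnion (C : (G : Type) → [Group G] → Prop) : Prop :=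
  ∀ (G : Type) [Group G] (ι : Type) (S : ι → Subgroup G), Directed (· ≤ ·) S →
    (∀ g, ∃ i, g ∈ S i) → (∀ i, C (S i)) → C G

/-- **Minimal convergence groups on the 2-sphere inside products.** -/
theorem result :
    (∀ (H : Type) [Group H], SphereGroup H →
      (∀ A : Subgroup H, A.Normal → A ≠ ⊥ →
        (∀ b : H, (∀ a ∈ A, b * a = a * b) → b = 1) ∧ ¬ Group.IsSolvable A) ∧
      InProducts H ∧ InPGL H) ∧
    (∀ Q : (H : Type) → Group H → Prop,
      ClosedProd (fun G _ => AllHave Q G) ∧ ClosedPower (fun G _ => AllHave Q G) ∧
      ClosedExt (fun G _ => AllHave Q G) ∧ ClosedUnion (fun G _ => AllHave Q G)) := by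
  have lin : ∀ (H : Type) [Group H], SphereGroup H → ∀ (n : ℕ) (I : Type)
      (f : H →* (I → PGL(n, ℂ))), Function.Injective f →
        ∃ g : H →* PGL(n, ℂ), Function.Injective g := by
    intro H _ h n I f hf
    have := h.countable
    exact NI.pgl h.ni n (fun i => (Pi.evalMonoidHom (fun _ : I => PGL(n, ℂ)) i).comp f)
      (jointly f hf)
  refine ⟨fun H _ h => ⟨fun A hA hne => ⟨fun b hb => h.centralizer A hA hne b hb,
    h.not_solvable A hA hne⟩, fun I G _ f hf => ⟨factor h f hf, ?_⟩, lin H h⟩, fun Q =>
    ⟨?_, ?_, ?_, ?_⟩⟩
  · have := h.nontrivial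
    exact NI.ultra h.ni (fun i => (Pi.evalMonoidHom G i).comp f) (jointly f hf)
  · intro I G _ hG H _ h f hf
    obtain ⟨i, hi⟩ := factor h ((FinSupp G).subtype.comp f)
      ((FinSupp G).subtype_injective.comp hf) (fun x => (f x).2)
    exact hG i H h ((Pi.evalMonoidHom G i).comp ((FinSupp G).subtype.comp f)) hi
  · intro n I hn H _ h f hf
    obtain ⟨g, hg⟩ := lin H h n I f hf
    exact hn H h g hg
  · intro G _ ι _ N _ hN hW H _ h f hf
    have := h.nontrivial
    have := Fintype.ofFinite ι
    have hnor : (⨅ i, N i : Subgroup G).Normal := Subgroup.normal_iInf_normal fun i => inferInstance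
    have hcomap : ((⨅ i, N i : Subgroup G).comap f) = ⊥ := by
      by_contra hne
      refine h.not_solvable _ inferInstance hne ?_
      have hh : Function.Injective ((f.comp ((⨅ i, N i : Subgroup G).comap f).subtype).codRestrict
          (⨅ i, N i : Subgroup G) (fun x => x.2)) := by
        intro x y hxy
        exact Subtype.ext (hf (congrArg Subtype.val hxy))
      exact Group.isSolvable_of_isSolvable_injective hh
    obtain ⟨i, -, hi⟩ := NI.finset h.ni Finset.univ
      (fun i => ((QuotientGroup.mk' (N i)).comp f).ker) (fun i => inferInstance) (by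
        rw [eq_bot_iff, ← hcomap]
        intro x hx
        rw [Subgroup.mem_comap, Subgroup.mem_iInf]
        intro i
        have h2 := (Subgroup.mem_iInf.mp ((Subgroup.mem_iInf.mp hx) i)) (Finset.mem_univ i)
        exact (QuotientGroup.eq_one_iff _).mp h2)
    exact hW i H h _ ((MonoidHom.ker_eq_bot_iff ((QuotientGroup.mk' (N i)).comp f)).mp hi)
  · intro G _ ι S hdir hS hW H _ h f hf
    obtain ⟨T, hT⟩ := h.1.out
    obtain ⟨i, hi⟩ : ∃ i, ∀ t ∈ T, f t ∈ S i := by
      classical
      have hne : Nonempty ι := ⟨(hS 1).choose⟩
      choose j hj using fun t => hS (f t)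
      obtain ⟨z, hz⟩ := hdir.finset_le (T.image j)
      exact ⟨z, fun t ht => hz (j t) (Finset.mem_image_of_mem j ht) (hj t)⟩
    have hall : ∀ x, f x ∈ S i := by
      intro x
      have hx : x ∈ Subgroup.closure (T : Set H) := by rw [hT]; exact Subgroup.mem_top x
      have h3 : Subgroup.closure (T : Set H) ≤ (S i).comap f := by
        rw [Subgroup.closure_le]
        exact hi
      exact h3 hx
    exact hW i H h (f.codRestrict (S i) hall) fun x y hxy =>
      hf (congrArg Subtype.val hxy)

end Pool.Agent.Results.MP_04c03c_gt.ConvergenceGroupsInProducts
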